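import Mathlib
import Pool.Agent.Helper34.KreinMore

set_option autoImplicit false

open MeasureTheory

namespace Pool.Agent.Results.MP_410e25_an.ContPlusNull

/-- The symmetric open interval `(-A, A)`, for `A` in `(0, ∞]`. -/
def band (A : ENNReal) : Set ℝ := {x : ℝ | ENNReal.ofReal |x| < A}

/-- Value at `t` of the exponential sum `∑ c_x e^{i x t}` (finite sum). -/
noncomputable def apEval (c : ℝ →₀ ℂ) (t : ℝ) : ℂ :=
  ∑ x ∈ c.support, c x * Complex.exp (Complex.I * (x : ℂ) * (t : ℂ))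

/-- The functional `Φ_f`, sending `∑ c_x e_x` to `∑ c_x f(x)`. -/
noncomputable def functional (f : ℝ → ℂ) (c : ℝ →₀ ℂ) : ℂ :=
  ∑ x ∈ c.support, c x * f x

/-- `f` restricted to `(-A, A)` belongs to `R_A` and has norm `‖f‖_A ≤ C`: the functional `Φ_f` is
bounded by `C` times the sup norm on exponential sums with frequencies in `(-A, A)`. -/
def NormLe (A : ENNReal) (C : ℝ) (f : ℝ → ℂ) : Prop :=
  ∀ c : ℝ →₀ ℂ, (∀ x ∈ c.support, x ∈ band A) →
    ∀ M : ℝ, (∀ t : ℝ, ‖apEval c t‖ ≤ M) → ‖functional f c‖ ≤ C * M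

/-- Sanity: `(-A, A)` is the usual interval for finite `A` and the line for `A = ∞`. -/
lemma band_ofReal (A : ℝ) : band (ENNReal.ofReal A) = Set.Ioo (-A) A := by
  ext x
  simp only [band, Set.mem_ofPred_eq, Set.mem_Ioo]
  rw [ENNReal.ofReal_lt_ofReal_iff', abs_lt]
  constructor
  · rintro ⟨h, -⟩
    exact h
  · intro h
    exact ⟨h, by linarith [h.1, h.2]⟩

lemma band_top : band ⊤ = Set.univ := by
  ext x
  simp [band]

lemma isOpen_band (A : ENNReal) : IsOpen (band A) := by
  have h : Continuous fun x : ℝ => ENNReal.ofReal |x| :=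
    ENNReal.continuous_ofReal.comp continuous_abs
  exact isOpen_lt h continuous_const

open Pool.Agent.Helper34.Krein in
/-- Let `0 < A ≤ ∞`. Every Lebesgue measurable `f` in `R_A` is the sum of a continuous element
`fc` of `R_A` and a measurable element `fm` of `R_A` that vanishes almost everywhere; moreover
`‖fc‖_A ≤ ‖f‖_A` and `‖fm‖_A ≤ ‖f‖_A`. -/
theorem result (A : ENNReal) (_ : 0 < A) (f : ℝ → ℂ) (C : ℝ) (hf : NormLe A C f)
    (hfm : AEMeasurable f (volume.restrict (band A))) :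
    ∃ fc fm : ℝ → ℂ,
      (NormLe A C fc ∧ ContinuousOn fc (band A)) ∧
      (NormLe A C fm ∧ AEMeasurable fm (volume.restrict (band A)) ∧
        ∀ᵐ x ∂(volume.restrict (band A)), fm x = 0) ∧
      ∀ x ∈ band A, f x = fc x + fm x := by
  obtain ⟨P, hP1, hPf⟩ := exists_posFun (band A) f C (by
      intro h hh M hM
      rw [Phi_apply]
      refine hf h ?_ M ?_
      · intro x hx
        exact (Finsupp.mem_supported ℂ h).1 hh hx
      · intro t
        have := hM t
        rw [ap_apply] at this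
        exact this)
  obtain ⟨v, hv, hrep⟩ := P.exists_vector (band A) f hPf
  have hπ := P.isRep_rep
  have hF : AEStronglyMeasurable (fun l : ℝ => inner ℂ v (P.rep l P.one))
      (volume.restrict (band A)) := by
    refine hfm.aestronglyMeasurable.congr ?_
    filter_upwards [self_mem_ae_restrict (isOpen_band A).measurableSet] with x hx
    exact hrep x hx
  obtain ⟨uc, u0, u2, hsum, huc, hu0, hnorm, hz⟩ :=
    hπ.decomposition P.one v (isOpen_band A) hF
  have hort : ‖uc + u0‖ ^ 2 = ‖uc‖ ^ 2 + ‖u0‖ ^ 2 := by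
    have h1 := norm_add_sq_eq_norm_sq_add_norm_sq_of_inner_eq_zero uc u0
      (hπ.inner_Hc_H0 huc hu0)
    nlinarith [h1]
  have hone : ‖P.one‖ ^ 2 ≤ C := by
    rw [P.norm_one_sq]
    exact hP1
  have hucn : ‖uc‖ ≤ ‖P.one‖ := by
    apply le_of_sq_le_sq _ (norm_nonneg _)
    nlinarith [sq_nonneg ‖u0‖, sq_nonneg ‖u2‖]
  have hu0n : ‖u0‖ ≤ ‖P.one‖ := by
    apply le_of_sq_le_sq _ (norm_nonneg _)
    nlinarith [sq_nonneg ‖uc‖, sq_nonneg ‖u2‖]
  have hbound : ∀ w : P.Hil, ‖w‖ ≤ ‖P.one‖ → NormLe A C (fun x => inner ℂ v (P.rep x w)) := by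
    intro w hw c _ M hM
    have h1 := norm_Phi_coeff_le P.contractive v w c M (by
      intro t
      rw [ap_apply]
      exact hM t)
    rw [Phi_apply] at h1
    have hM0 : 0 ≤ M := (norm_nonneg _).trans (hM 0)
    refine h1.trans (mul_le_mul_of_nonneg_right ?_ hM0)
    calc ‖v‖ * ‖w‖ ≤ ‖P.one‖ * ‖P.one‖ :=
          mul_le_mul hv hw (norm_nonneg _) (norm_nonneg _)
      _ = ‖P.one‖ ^ 2 := by ring
      _ ≤ C := hone
  have hcont : Continuous fun x : ℝ => (inner ℂ v (P.rep x uc) : ℂ) := by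
    have h3 : Continuous fun l : ℝ => P.rep l uc := huc
    exact continuous_const.inner h3
  have hzero : (fun x : ℝ => (inner ℂ v (P.rep x u0) : ℂ)) =ᵐ[volume] fun _ => (0 : ℂ) := hu0 v
  refine ⟨fun x => inner ℂ v (P.rep x uc), fun x => inner ℂ v (P.rep x u0),
    ⟨hbound uc hucn, hcont.continuousOn⟩, ⟨hbound u0 hu0n, ?_, ?_⟩, ?_⟩
  · exact (aemeasurable_const.congr hzero.symm).restrict
  · exact ae_restrict_of_ae hzero
  · intro x hx
    rw [hrep x hx, hsum, map_add (P.rep x) (uc + u0) u2, map_add (P.rep x) uc u0,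
      inner_add_right, inner_add_right, hz x hx, add_zero]

end Pool.Agent.Results.MP_410e25_an.ContPlusNull
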